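import Pool.Agent.V5helper19.ER.Stm

/-!
# Project ER, job DM2: two-sided invariant spaces beyond level one have dimension at least `c n³`
-/

set_option autoImplicit false
open Finset

namespace V5helper15.ER

open V5helper19.ER

/-- the functions of `W` with the colouring `γ` -/
def UU {n m : ℕ} (e : Fin m × Fin 4 ↪ Fin n) (W : Submodule ℝ (G n → ℝ))
    (γ : Fin m → Bool × Bool) : Submodule ℝ (G n → ℝ) where
  carrier := {w | w ∈ W ∧ IsCol e γ w}
  add_mem' := by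
    rintro a b ⟨ha, ha'⟩ ⟨hb, hb'⟩
    refine ⟨W.add_mem ha hb, fun i x y => ⟨fun h => ?_, fun h => ?_⟩⟩
    · rw [Pi.add_apply, Pi.add_apply, (ha' i x y).1 h, (hb' i x y).1 h]; ring
    · rw [Pi.add_apply, Pi.add_apply, (ha' i x y).2 h, (hb' i x y).2 h]; ring
  zero_mem' := ⟨W.zero_mem, fun i x y => ⟨fun _ => by simp, fun _ => by simp⟩⟩
  smul_mem' := by
    rintro c a ⟨ha, ha'⟩
    refine ⟨W.smul_mem c ha, fun i x y => ⟨fun h => ?_, fun h => ?_⟩⟩
    · rw [Pi.smul_apply, Pi.smul_apply, (ha' i x y).1 h, smul_eq_mul, smul_eq_mul]; ring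
    · rw [Pi.smul_apply, Pi.smul_apply, (ha' i x y).2 h, smul_eq_mul, smul_eq_mul]; ring

/-- the inversion of the argument -/
def inv {n : ℕ} : (G n → ℝ) ≃ₗ[ℝ] (G n → ℝ) := LinearEquiv.funCongrLeft ℝ ℝ (Equiv.inv (G n))

lemma inv_apply {n : ℕ} (w : G n → ℝ) (x : G n) : inv w x = w x⁻¹ := rfl

lemma sign_uu {n m : ℕ} (e : Fin m × Fin 4 ↪ Fin n) (i : Fin m) (a b c d : Fin 4) (h : a ≠ b)
    (h' : c ≠ d) : Equiv.swap (e (i, a)) (e (i, b)) * Equiv.swap (e (i, c)) (e (i, d)) ∈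
      alternatingGroup (Fin n) := by
  have h1 : e (i, a) ≠ e (i, b) := fun h2 => h (Prod.ext_iff.1 (e.injective h2)).2
  have h3 : e (i, c) ≠ e (i, d) := fun h2 => h' (Prod.ext_iff.1 (e.injective h2)).2
  rw [Equiv.Perm.mem_alternatingGroup, map_mul, Equiv.Perm.sign_swap h1, Equiv.Perm.sign_swap h3]
  decide

theorem t_DM2 (hDM1 : S_DM1) (hR1 : S_R1) (hP3 : S_P3) : S_DM2 := by
  obtain ⟨n₀, hn₀⟩ := hDM1
  refine ⟨n₀ + 25, fun n hn W hW hRI hLI hvan => ?_⟩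
  obtain ⟨-, m, e, Γ, hΓ, hγ⟩ := hn₀ n (by omega) W hW hRI hvan
  have hk : ∀ γ ∈ Γ, n / 5 ≤ Module.finrank ℝ (UU e W γ) := by
    intro γ hγΓ
    obtain ⟨hsup, w, hwW, hw0, hwc⟩ := hγ γ hγΓ
    have hwU : w ∈ UU e W γ := ⟨hwW, hwc⟩
    have hRI' : RI ((UU e W γ).map (inv : (G n → ℝ) ≃ₗ[ℝ] (G n → ℝ)).toLinearMap) := by
      rintro g _ ⟨u, ⟨hu1, hu2⟩, rfl⟩
      refine ⟨fun x => u (g⁻¹ * x), ⟨hLI g⁻¹ u hu1, fun i x y => ⟨fun h => ?_, fun h => ?_⟩⟩, ?_⟩
      · refine (hu2 i (g⁻¹ * x) (g⁻¹ * y)).1 ?_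
        rw [Subgroup.coe_mul, Subgroup.coe_mul, h, mul_assoc]
      · refine (hu2 i (g⁻¹ * x) (g⁻¹ * y)).2 ?_
        rw [Subgroup.coe_mul, Subgroup.coe_mul, h, mul_assoc]
      · funext x
        change u (g⁻¹ * x⁻¹) = u (x * g)⁻¹
        rw [mul_inv_rev]
    have hne : ∃ u ∈ (UU e W γ).map (inv : (G n → ℝ) ≃ₗ[ℝ] (G n → ℝ)).toLinearMap,
        ∃ x y, u x ≠ u y := by
      refine ⟨inv w, ⟨w, hwU, rfl⟩, ?_⟩
      by_contra hcon
      push Not at hcon
      have hconst : ∀ x y, w x = w y := by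
        intro x y
        have := hcon x⁻¹ y⁻¹
        rwa [inv_apply, inv_apply, inv_inv, inv_inv] at this
      obtain ⟨i, hi⟩ : ∃ i, γ i ≠ (false, false) := by
        by_contra hall
        push Not at hall
        have : V5helper19.ER.sup γ = 0 := by
          unfold V5helper19.ER.sup
          rw [Finset.card_eq_zero, Finset.filter_eq_empty_iff]
          intro i _
          simp [hall i]
        omega
      apply hw0
      funext x
      have h1 := (hwc i x (x * ⟨uu e i, sign_uu e i 0 1 2 3 (by decide) (by decide)⟩)).1 rfl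
      have h2 := (hwc i x (x * ⟨vv e i, sign_uu e i 0 2 1 3 (by decide) (by decide)⟩)).2 rfl
      rw [hconst _ x] at h1 h2
      rw [Pi.zero_apply]
      by_cases hb : (γ i).1 = true
      · rw [hb] at h1
        simp only [sg, if_true] at h1
        linarith
      · by_cases hb' : (γ i).2 = true
        · rw [hb'] at h2
          simp only [sg, if_true] at h2
          linarith
        · exfalso
          apply hi
          simp only [Bool.not_eq_true] at hb hb'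
          exact Prod.ext hb hb'
    have h3 := hR1 n (by omega) _ hRI' hne
    have h4 : Module.finrank ℝ ((UU e W γ).map (inv : (G n → ℝ) ≃ₗ[ℝ] (G n → ℝ)).toLinearMap) =
        Module.finrank ℝ (UU e W γ) := LinearEquiv.finrank_map_eq inv _
    rw [h4] at h3
    have h5 : ((n / 5 : ℕ) : ℝ) ≤ (n : ℝ) / 5 := Nat.cast_div_le
    have h6 : (25 : ℝ) ≤ n := by exact_mod_cast (by omega : 25 ≤ n)
    have h7 : ((n / 5 : ℕ) : ℝ) ≤ (Module.finrank ℝ (UU e W γ) : ℝ) := by linarith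
    exact_mod_cast h7
  have h1 := hP3 n m e W Γ (UU e W) (n / 5) fun γ hγΓ =>
    ⟨fun w hw => hw.1, hk γ hγΓ, fun w hw => hw.2⟩
  have h2 : (((n / 5 : ℕ) : ℝ)) * (Γ.card : ℝ) ≤ (Module.finrank ℝ W : ℝ) := by exact_mod_cast h1
  have h3 : (n : ℝ) / 5 - 1 ≤ ((n / 5 : ℕ) : ℝ) := by
    have : n < 5 * (n / 5) + 5 := by omega
    have h4 : (n : ℝ) < 5 * ((n / 5 : ℕ) : ℝ) + 5 := by exact_mod_cast this
    linarith
  have h6 : (25 : ℝ) ≤ n := by exact_mod_cast (by omega : 25 ≤ n)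
  have h7 : (n : ℝ) ^ 2 / 100 ≤ Γ.card := by linarith
  have h8 : ((n : ℝ) / 5 - 1) * ((n : ℝ) ^ 2 / 100) ≤ ((n / 5 : ℕ) : ℝ) * (Γ.card : ℝ) := by
    apply mul_le_mul h3 h7 (by positivity)
    positivity
  nlinarith [sq_nonneg (n : ℝ)]

end V5helper15.ER
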