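import Pool.Agent.V5helper19.ER.Stm2

/-!
# Project ER, job ST1: only the large entries count
-/

set_option autoImplicit false
open Finset

namespace V5helper15.ER

open V5helper19.ER

/-- the large entries of a matrix, as a matrix -/
noncomputable def aL {n : ℕ} (η : ℝ) (a b : Fin n → Fin n → ℝ) (i l : Fin n) : ℝ :=
  if η < a i l then b i l else 0

/-- the quadratic form -/
noncomputable def PP {n : ℕ} (m x y : Fin n → Fin n → ℝ) : ℝ :=
  ∑ i, ∑ k, m i k * ∑ l, x i l * y k l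

lemma sum_LL {n : ℕ} (η : ℝ) (a : Fin n → Fin n → ℝ) (f : Fin n → Fin n → ℝ) :
    ∑ e ∈ LL η a, f e.1 e.2 = ∑ i, ∑ l, if η < a i l then f i l else 0 := by
  rw [LL, Finset.sum_filter, Fintype.sum_prod_type]

lemma sum_LL1 {n : ℕ} (η : ℝ) (a : Fin n → Fin n → ℝ) :
    ∑ e ∈ LL η a, a e.1 e.2 ^ 2 = ∑ i, ∑ l, aL η a a i l ^ 2 := by
  rw [sum_LL η a fun i l => a i l ^ 2]
  refine Finset.sum_congr rfl fun i _ => Finset.sum_congr rfl fun l _ => ?_
  rw [aL]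
  split_ifs
  · rfl
  · norm_num

lemma sum_LL2 {n : ℕ} (η : ℝ) (a m : Fin n → Fin n → ℝ) :
    ∑ e ∈ LL η a, ∑ e' ∈ (LL η a).filter (fun e' => e'.2 = e.2),
      m e.1 e'.1 * (a e.1 e.2 * a e'.1 e'.2) = PP m (aL η a a) (aL η a a) := by
  have h1 : ∀ i l : Fin n, ∑ e' ∈ (LL η a).filter (fun e' => e'.2 = l),
      m i e'.1 * (a i l * a e'.1 e'.2) = ∑ k, m i k * (a i l * aL η a a k l) := by
    intro i l
    rw [Finset.sum_filter, sum_LL η a fun k l' => if l' = l then m i k * (a i l * a k l') else 0]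
    refine Finset.sum_congr rfl fun k _ => ?_
    rw [Finset.sum_eq_single l]
    · rw [if_pos rfl, aL]
      split_ifs
      · rfl
      · ring
    · intro l' _ hl'
      rw [if_neg hl', ite_self]
    · intro h; exact absurd (Finset.mem_univ _) h
  rw [Finset.sum_congr rfl fun e _ => h1 e.1 e.2,
    sum_LL η a fun i l => ∑ k, m i k * (a i l * aL η a a k l), PP]
  refine Finset.sum_congr rfl fun i _ => ?_
  simp_rw [Finset.mul_sum]
  rw [Finset.sum_comm]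
  refine Finset.sum_congr rfl fun l _ => ?_
  by_cases h : η < a i l
  · rw [if_pos h]
    refine Finset.sum_congr rfl fun k _ => ?_
    rw [show aL η a a i l = a i l by rw [aL, if_pos h]]
  · rw [if_neg h]
    symm
    refine Finset.sum_eq_zero fun k _ => ?_
    rw [show aL η a a i l = 0 by rw [aL, if_neg h]]
    ring

lemma PP_add {n : ℕ} (m x y : Fin n → Fin n → ℝ) :
    PP m (fun i l => x i l + y i l) (fun i l => x i l + y i l) =
      PP m x x + PP m x y + PP m y x + PP m y y := by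
  simp only [PP, ← Finset.sum_add_distrib]
  refine Finset.sum_congr rfl fun i _ => Finset.sum_congr rfl fun k _ => ?_
  simp only [Finset.mul_sum, ← Finset.sum_add_distrib]
  refine Finset.sum_congr rfl fun l _ => ?_
  ring

lemma PP_le {n : ℕ} {m : Fin n → Fin n → ℝ} (m0 : ∀ i k, 0 ≤ m i k) (ms : ∀ i k, m i k = m k i)
    (mrow : ∀ i, ∑ k, m i k ≤ 2) (x y : Fin n → Fin n → ℝ) {t : ℝ} (ht : 0 < t) :
    PP m x y ≤ t * ∑ i, ∑ l, x i l ^ 2 + t⁻¹ * ∑ i, ∑ l, y i l ^ 2 := by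
  have h1 : PP m x y ≤ ∑ i, ∑ k, m i k * (t / 2 * ∑ l, x i l ^ 2) +
      ∑ i, ∑ k, m i k * (t⁻¹ / 2 * ∑ l, y k l ^ 2) := by
    rw [PP, ← Finset.sum_add_distrib]
    refine Finset.sum_le_sum fun i _ => ?_
    rw [← Finset.sum_add_distrib]
    refine Finset.sum_le_sum fun k _ => ?_
    rw [← mul_add]
    refine mul_le_mul_of_nonneg_left ?_ (m0 i k)
    rw [Finset.mul_sum, Finset.mul_sum, ← Finset.sum_add_distrib]
    refine Finset.sum_le_sum fun l _ => ?_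
    have h2 : 0 ≤ t⁻¹ / 2 * (t * x i l - y k l) ^ 2 := by positivity
    have h3 : t⁻¹ / 2 * (t * x i l - y k l) ^ 2 =
        (t⁻¹ * t) * (t / 2 * x i l ^ 2) - (t⁻¹ * t) * (x i l * y k l) + t⁻¹ / 2 * y k l ^ 2 := by
      ring
    rw [inv_mul_cancel₀ ht.ne', one_mul, one_mul] at h3
    linarith
  have h2 : ∑ i, ∑ k, m i k * (t / 2 * ∑ l, x i l ^ 2) ≤ t * ∑ i, ∑ l, x i l ^ 2 := by
    rw [Finset.mul_sum]
    refine Finset.sum_le_sum fun i _ => ?_
    rw [← Finset.sum_mul]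
    have h3 : 0 ≤ t / 2 * ∑ l, x i l ^ 2 :=
      mul_nonneg (by linarith) (Finset.sum_nonneg fun l _ => sq_nonneg _)
    calc (∑ k, m i k) * (t / 2 * ∑ l, x i l ^ 2) ≤ 2 * (t / 2 * ∑ l, x i l ^ 2) :=
          mul_le_mul_of_nonneg_right (mrow i) h3
      _ = t * ∑ l, x i l ^ 2 := by ring
  have h3 : ∑ i, ∑ k, m i k * (t⁻¹ / 2 * ∑ l, y k l ^ 2) ≤ t⁻¹ * ∑ i, ∑ l, y i l ^ 2 := by
    rw [Finset.sum_comm, Finset.mul_sum]
    refine Finset.sum_le_sum fun k _ => ?_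
    rw [← Finset.sum_mul]
    have hti : 0 < t⁻¹ := inv_pos.2 ht
    have h3 : 0 ≤ t⁻¹ / 2 * ∑ l, y k l ^ 2 :=
      mul_nonneg (by linarith) (Finset.sum_nonneg fun l _ => sq_nonneg _)
    have h4 : ∑ i, m i k ≤ 2 := by
      rw [Finset.sum_congr rfl fun i _ => ms i k]
      exact mrow k
    calc (∑ i, m i k) * (t⁻¹ / 2 * ∑ l, y k l ^ 2) ≤ 2 * (t⁻¹ / 2 * ∑ l, y k l ^ 2) :=
          mul_le_mul_of_nonneg_right h4 h3
      _ = t⁻¹ * ∑ l, y k l ^ 2 := by ring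
  linarith

lemma core {K : ℝ} {n : ℕ} {c : ℝ} {a m : Fin n → Fin n → ℝ} (h : Dat K n c a m) {η t σ₀ : ℝ}
    (hη : 0 < η) (ht : 0 < t) (hcn : c / n ≤ η / 2) (hσ₀ : 0 < σ₀)
    (hsm : 144 * 64 * (η ^ 2 + 15 / n) ≤ σ₀ ^ 3) :
    (1 - 2 / ((n : ℝ) - 1)) * c ^ 2 ≤ ∑ e ∈ LL η a, a e.1 e.2 ^ 2 +
    ∑ e ∈ LL η a, ∑ e' ∈ (LL η a).filter (fun e' => e'.2 = e.2),
      m e.1 e'.1 * (a e.1 e.2 * a e'.1 e'.2) + (3 * σ₀ + 10 * t + 2 * (σ₀ * t⁻¹)) +
      K * c / Real.sqrt n ∧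
    ((LL η a).card : ℝ) ≤ 20 / η ^ 2 := by
  have hc0 : 0 < c := lt_of_lt_of_le one_pos h.c1
  have hcn0 : 0 ≤ c / n := by positivity
  set b : Fin n → Fin n → ℝ := fun i l => a i l - c / n with hb
  set bs : Fin n → Fin n → ℝ := fun i l => if a i l ≤ η then b i l else 0 with hbs
  have hsplit : b = fun i l => aL η a b i l + bs i l := by
    funext i l
    rw [aL, hbs]
    by_cases h1 : a i l ≤ η
    · simp only [if_pos h1, if_neg (not_lt.2 h1), zero_add]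
    · simp only [if_neg h1, if_pos (not_le.1 h1), add_zero]
  have hsq : ∀ i l, b i l ^ 2 = aL η a b i l ^ 2 + bs i l ^ 2 := by
    intro i l
    rw [aL, hbs]
    by_cases h1 : a i l ≤ η
    · simp only [if_pos h1, if_neg (not_lt.2 h1)]; ring
    · simp only [if_neg h1, if_pos (not_le.1 h1)]; ring
  set σ : ℝ := ∑ i, ∑ l, bs i l ^ 2 with hσ
  set ρ : ℝ := ∑ i, ∑ l, aL η a b i l ^ 2 with hρ
  have hσ0 : 0 ≤ σ := Finset.sum_nonneg fun i _ => Finset.sum_nonneg fun l _ => sq_nonneg _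
  have hρ0 : 0 ≤ ρ := Finset.sum_nonneg fun i _ => Finset.sum_nonneg fun l _ => sq_nonneg _
  have htot : ∑ i, ∑ l, b i l ^ 2 = ρ + σ := by
    rw [hρ, hσ, ← Finset.sum_add_distrib]
    refine Finset.sum_congr rfl fun i _ => ?_
    rw [← Finset.sum_add_distrib]
    exact Finset.sum_congr rfl fun l _ => hsq i l
  have h5 : ρ + σ ≤ 5 := by rw [← htot]; exact h.a2
  have hσ' : (∑ i, ∑ j, if a i j ≤ η then (a i j - c / n) ^ 2 else 0) = σ := by
    rw [hσ]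
    refine Finset.sum_congr rfl fun i _ => Finset.sum_congr rfl fun j _ => ?_
    simp only [hbs]
    split_ifs
    · rfl
    · norm_num
  have hn0 : (0 : ℝ) ≤ n := Nat.cast_nonneg n
  have hσσ : σ ≤ σ₀ := by
    have h1 := h.small η (by linarith)
    rw [hσ'] at h1
    have h2 : c ^ 3 ≤ 64 := by
      calc c ^ 3 ≤ 4 ^ 3 := pow_le_pow_left₀ hc0.le h.c4 3
        _ = 64 := by norm_num
    have h3 : 3 * σ / n ≤ 15 / n := by
      apply div_le_div_of_nonneg_right _ hn0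
      linarith
    have h4 : σ ^ 3 ≤ σ₀ ^ 3 := by
      refine h1.trans (le_trans ?_ hsm)
      have h6 : 0 ≤ η ^ 2 + 3 * σ / n := by positivity
      calc 144 * c ^ 3 * (η ^ 2 + 3 * σ / n) ≤ 144 * 64 * (η ^ 2 + 3 * σ / n) := by
            apply mul_le_mul_of_nonneg_right _ h6
            linarith
        _ ≤ 144 * 64 * (η ^ 2 + 15 / n) := by linarith
    exact le_of_pow_le_pow_left₀ (by norm_num) hσ₀.le h4
  constructor
  · have hmain := h.main
    have e1 : ∑ i, ∑ l, (a i l - c / n) ^ 2 = ρ + σ := htot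
    have e2 : ∑ i, ∑ k, m i k * ∑ l, (a i l - c / n) * (a k l - c / n) = PP m b b := rfl
    rw [e1, e2] at hmain
    have e3 : PP m b b = PP m (aL η a b) (aL η a b) + PP m (aL η a b) bs + PP m bs (aL η a b) +
        PP m bs bs := by
      conv_lhs => rw [hsplit]
      exact PP_add m (aL η a b) bs
    have g1 := PP_le h.m0 h.ms h.mrow (aL η a b) bs ht
    have g2 := PP_le h.m0 h.ms h.mrow bs (aL η a b) (inv_pos.2 ht)
    have g3 := PP_le h.m0 h.ms h.mrow bs bs one_pos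
    rw [← hρ, ← hσ] at g1 g2
    rw [← hσ] at g3
    rw [inv_inv] at g2
    rw [inv_one, one_mul] at g3
    rw [sum_LL1, sum_LL2]
    have k1 : ρ ≤ ∑ i, ∑ l, aL η a a i l ^ 2 := by
      refine Finset.sum_le_sum fun i _ => Finset.sum_le_sum fun l _ => ?_
      rw [aL, aL]
      split_ifs with h1
      · simp only [hb]
        apply pow_le_pow_left₀
        · linarith
        · linarith
      · exact le_rfl
    have k0 : ∀ i l, 0 ≤ aL η a b i l ∧ aL η a b i l ≤ aL η a a i l := by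
      intro i l
      rw [aL, aL]
      split_ifs with h1
      · simp only [hb]
        constructor <;> linarith
      · exact ⟨le_rfl, le_rfl⟩
    have k2 : PP m (aL η a b) (aL η a b) ≤ PP m (aL η a a) (aL η a a) := by
      refine Finset.sum_le_sum fun i _ => Finset.sum_le_sum fun k _ => ?_
      refine mul_le_mul_of_nonneg_left (Finset.sum_le_sum fun l _ => ?_) (h.m0 i k)
      exact mul_le_mul (k0 i l).2 (k0 k l).2 (k0 k l).1 ((k0 i l).1.trans (k0 i l).2)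
    have k3 : t * ρ ≤ t * 5 := mul_le_mul_of_nonneg_left (by linarith) ht.le
    have k4 : t⁻¹ * σ ≤ σ₀ * t⁻¹ := by
      rw [mul_comm]
      exact mul_le_mul_of_nonneg_right hσσ (inv_pos.2 ht).le
    linarith
  · have h1 : ((LL η a).card : ℝ) * (η ^ 2 / 4) ≤ ∑ e ∈ LL η a, b e.1 e.2 ^ 2 := by
      rw [← nsmul_eq_mul]
      refine Finset.card_nsmul_le_sum _ _ _ fun e he => ?_
      rw [LL, Finset.mem_filter] at he
      have h2 : η / 2 ≤ b e.1 e.2 := by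
        simp only [hb]
        linarith [he.2]
      calc η ^ 2 / 4 = (η / 2) ^ 2 := by ring
        _ ≤ b e.1 e.2 ^ 2 := pow_le_pow_left₀ (by linarith) h2 2
    have h2 : ∑ e ∈ LL η a, b e.1 e.2 ^ 2 = ρ := by
      rw [sum_LL η a fun i l => b i l ^ 2, hρ]
      refine Finset.sum_congr rfl fun i _ => Finset.sum_congr rfl fun l _ => ?_
      rw [aL]
      split_ifs
      · rfl
      · norm_num
    rw [le_div_iff₀ (by positivity)]
    nlinarith

theorem t_ST1 : S_ST1 := by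
  intro K s hK hs
  -- parameters
  obtain ⟨t, ht⟩ : ∃ t : ℝ, t = s / 40 := ⟨_, rfl⟩
  have ht0 : 0 < t := by rw [ht]; positivity
  obtain ⟨σ₀, hσ₀⟩ : ∃ σ₀ : ℝ, σ₀ = min 1 (s / (4 * (3 + 2 * t⁻¹))) := ⟨_, rfl⟩
  have hti : 0 < t⁻¹ := inv_pos.2 ht0
  have hσ0 : 0 < σ₀ := by rw [hσ₀]; positivity
  have hσ1 : σ₀ ≤ 1 := by rw [hσ₀]; exact min_le_left _ _
  have hσ2 : 3 * σ₀ + 2 * (σ₀ * t⁻¹) ≤ s / 4 := by
    have h1 : σ₀ ≤ s / (4 * (3 + 2 * t⁻¹)) := by rw [hσ₀]; exact min_le_right _ _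
    rw [le_div_iff₀ (by positivity)] at h1
    linarith
  obtain ⟨η, hη⟩ : ∃ η : ℝ, η = min (1 / 1000) (σ₀ ^ 3 / 18432) := ⟨_, rfl⟩
  have hη0 : 0 < η := by rw [hη]; positivity
  have hη1 : η ≤ 1 / 1000 := by rw [hη]; exact min_le_left _ _
  have hη2 : η ≤ σ₀ ^ 3 / 18432 := by rw [hη]; exact min_le_right _ _
  obtain ⟨n1, hn1⟩ := exists_nat_gt (8 / η)
  obtain ⟨n2, hn2⟩ := exists_nat_gt (15 * 18432 / σ₀ ^ 3)
  obtain ⟨n3, hn3⟩ := exists_nat_gt (128 / s + 1)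
  obtain ⟨n4, hn4⟩ := exists_nat_gt ((16 * K / s) ^ 2)
  refine ⟨η, n1 + n2 + n3 + n4 + 2, hη0, hη1, fun n hn c a m h => ?_⟩
  have hn1' : (n1 : ℝ) ≤ n := by exact_mod_cast (by omega : n1 ≤ n)
  have hn2' : (n2 : ℝ) ≤ n := by exact_mod_cast (by omega : n2 ≤ n)
  have hn3' : (n3 : ℝ) ≤ n := by exact_mod_cast (by omega : n3 ≤ n)
  have hn4' : (n4 : ℝ) ≤ n := by exact_mod_cast (by omega : n4 ≤ n)
  have hnpos : (0 : ℝ) < n := by
    have : 0 < n := by omega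
    exact_mod_cast this
  have hc0 : 0 < c := lt_of_lt_of_le one_pos h.c1
  have q1 : c / n ≤ η / 2 := by
    have h1 : 8 / η < n := lt_of_lt_of_le hn1 hn1'
    rw [div_lt_iff₀ hη0] at h1
    rw [div_le_iff₀ hnpos]
    have := h.c4
    linarith
  have q2 : 144 * 64 * (η ^ 2 + 15 / n) ≤ σ₀ ^ 3 := by
    have h1 : 15 * 18432 / σ₀ ^ 3 < n := lt_of_lt_of_le hn2 hn2'
    rw [div_lt_iff₀ (by positivity)] at h1
    have h2 : (15 : ℝ) / n ≤ σ₀ ^ 3 / 18432 := by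
      rw [div_le_div_iff₀ hnpos (by norm_num)]
      linarith
    have h3 : η ^ 2 ≤ η := by nlinarith
    linarith
  obtain ⟨k1, k2⟩ := core h hη0 ht0 q1 hσ0 q2
  refine ⟨?_, k2⟩
  have hc2 : c ^ 2 ≤ 16 := by
    calc c ^ 2 ≤ 4 ^ 2 := pow_le_pow_left₀ hc0.le h.c4 2
      _ = 16 := by norm_num
  have q3 : 2 / ((n : ℝ) - 1) * c ^ 2 ≤ s / 4 := by
    have h1 : 128 / s + 1 < n := lt_of_lt_of_le hn3 hn3'
    have h2 : 128 / s < (n : ℝ) - 1 := by linarith
    have h0 : 0 < (n : ℝ) - 1 := lt_trans (by positivity) h2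
    rw [div_lt_iff₀ hs] at h2
    rw [div_mul_eq_mul_div, div_le_iff₀ h0]
    linarith
  have q4 : K * c / Real.sqrt n ≤ s / 4 := by
    have h1 : (16 * K / s) ^ 2 < n := lt_of_lt_of_le hn4 hn4'
    have h2 : 16 * K / s ≤ Real.sqrt n := Real.le_sqrt_of_sq_le h1.le
    have h3 : 0 < Real.sqrt n := Real.sqrt_pos.2 hnpos
    rw [div_le_iff₀ hs] at h2
    rw [div_le_iff₀ h3]
    have h4 : K * c ≤ K * 4 := mul_le_mul_of_nonneg_left h.c4 hK
    nlinarith
  have q5 : 10 * t = s / 4 := by rw [ht]; ring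
  linarith

end V5helper15.ER
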